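import Mathlib

/-!
# MP_0c20fd_an: the 2-summing norm need not be smooth at an invertible operator
-/

namespace Pool.Agent.Results.MP_0c20fd_an.NotSmoothAtInvertible

open Finset

section Defs

variable (𝕜 : Type) [RCLike 𝕜] {X : Type} [NormedAddCommGroup X] [NormedSpace 𝕜 X]

/-- The weak `ℓ₂` norm `sup_{‖f‖ ≤ 1} (∑ |f (x i)|^2)^{1/2}` of a finite family. -/
noncomputable def weakNorm {m : ℕ} (x : Fin m → X) : ℝ :=
  ⨆ f : {f : X →L[𝕜] 𝕜 // ‖f‖ ≤ 1}, Real.sqrt (∑ i, ‖f.1 (x i)‖ ^ 2)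

variable {𝕜}

/-- `C` is an admissible constant in the definition of the 2-summing norm of `T`. -/
def TwoSummingBound (T : X →ₗ[𝕜] X) (C : ℝ) : Prop :=
  0 ≤ C ∧ ∀ (m : ℕ) (x : Fin m → X),
    Real.sqrt (∑ i, ‖T (x i)‖ ^ 2) ≤ C * weakNorm 𝕜 x

/-- The 2-summing norm: the least admissible constant. -/
noncomputable def pi2 (T : X →ₗ[𝕜] X) : ℝ := sInf {C | TwoSummingBound T C}

/-- The norm of a linear functional on `Π₂(X,X)` (all operators, normed by `pi2`). -/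
noncomputable def dualNorm (φ : (X →ₗ[𝕜] X) →ₗ[𝕜] 𝕜) : ℝ :=
  sInf {C | 0 ≤ C ∧ ∀ S : X →ₗ[𝕜] X, ‖φ S‖ ≤ C * pi2 S}

/-- `Π₂(X,X)` is smooth at `T`: exactly one norm-one functional attains `pi2 T` at `T`. -/
def SmoothAt (T : X →ₗ[𝕜] X) : Prop :=
  ∃! φ : (X →ₗ[𝕜] X) →ₗ[𝕜] 𝕜, dualNorm φ = 1 ∧ φ T = ((pi2 T : ℝ) : 𝕜)

end Defs

section General

variable {𝕜 : Type} [RCLike 𝕜] {X : Type} [NormedAddCommGroup X] [NormedSpace 𝕜 X]

lemma weak_bdd {m : ℕ} (x : Fin m → X) :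
    BddAbove (Set.range fun f : {f : X →L[𝕜] 𝕜 // ‖f‖ ≤ 1} =>
      Real.sqrt (∑ i, ‖f.1 (x i)‖ ^ 2)) := by
  refine ⟨Real.sqrt (∑ i, ‖x i‖ ^ 2), ?_⟩
  rintro _ ⟨f, rfl⟩
  apply Real.sqrt_le_sqrt
  apply Finset.sum_le_sum
  intro i _
  have h1 : ‖f.1 (x i)‖ ≤ ‖x i‖ := by
    calc ‖f.1 (x i)‖ ≤ ‖f.1‖ * ‖x i‖ := f.1.le_opNorm _
      _ ≤ 1 * ‖x i‖ := by gcongr; exact f.2
      _ = ‖x i‖ := one_mul _
  gcongr

lemma le_weak {m : ℕ} (x : Fin m → X) (f : X →L[𝕜] 𝕜) (hf : ‖f‖ ≤ 1) :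
    Real.sqrt (∑ i, ‖f (x i)‖ ^ 2) ≤ weakNorm 𝕜 x :=
  le_ciSup (weak_bdd (𝕜 := 𝕜) x) (⟨f, hf⟩ : {f : X →L[𝕜] 𝕜 // ‖f‖ ≤ 1})

lemma weak_one (v : X) : weakNorm 𝕜 (fun _ : Fin 1 => v) ≤ ‖v‖ := by
  have : Nonempty {f : X →L[𝕜] 𝕜 // ‖f‖ ≤ 1} := ⟨⟨0, by simp⟩⟩
  apply ciSup_le
  intro f
  simp only [Finset.univ_unique, Finset.sum_const, Finset.card_singleton, one_smul]
  rw [Real.sqrt_sq (norm_nonneg _)]
  calc ‖f.1 v‖ ≤ ‖f.1‖ * ‖v‖ := f.1.le_opNorm _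
      _ ≤ 1 * ‖v‖ := by gcongr; exact f.2
      _ = ‖v‖ := one_mul _

lemma norm_le_of_bound (S : X →ₗ[𝕜] X) (C : ℝ) (h : TwoSummingBound S C) (v : X)
    (hv : ‖v‖ ≤ 1) : ‖S v‖ ≤ C := by
  have h1 := h.2 1 (fun _ => v)
  simp only [Finset.univ_unique, Finset.sum_const, Finset.card_singleton, one_smul] at h1
  rw [Real.sqrt_sq (norm_nonneg _)] at h1
  have h2 := weak_one (𝕜 := 𝕜) v
  calc ‖S v‖ ≤ C * weakNorm 𝕜 (fun _ : Fin 1 => v) := h1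
    _ ≤ C * 1 := by
        apply mul_le_mul_of_nonneg_left _ h.1
        exact h2.trans hv
    _ = C := mul_one _

lemma norm_le_pi2 (S : X →ₗ[𝕜] X) (hne : ∃ C, TwoSummingBound S C) (v : X) (hv : ‖v‖ ≤ 1) :
    ‖S v‖ ≤ pi2 S :=
  le_csInf hne fun C hC => norm_le_of_bound S C hC v hv

lemma pi2_le (S : X →ₗ[𝕜] X) (C : ℝ) (h : TwoSummingBound S C) : pi2 S ≤ C :=
  csInf_le ⟨0, fun _ h => h.1⟩ h

end General

section LInf

variable {𝕜 : Type} [RCLike 𝕜] {n : ℕ}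

lemma coord_sum_le {m : ℕ} (x : Fin m → (Fin n → 𝕜)) (j : Fin n) :
    ∑ i, ‖x i j‖ ^ 2 ≤ weakNorm 𝕜 x ^ 2 := by
  have h1 : ‖(ContinuousLinearMap.proj j : (Fin n → 𝕜) →L[𝕜] 𝕜)‖ ≤ 1 := by
    apply ContinuousLinearMap.opNorm_le_bound _ zero_le_one
    intro y
    rw [one_mul]
    exact norm_le_pi_norm y j
  have h2 := le_weak (𝕜 := 𝕜) x _ h1
  have h3 : (0:ℝ) ≤ ∑ i, ‖x i j‖ ^ 2 := Finset.sum_nonneg fun i _ => by positivity
  calc ∑ i, ‖x i j‖ ^ 2 = Real.sqrt (∑ i, ‖x i j‖ ^ 2) ^ 2 := (Real.sq_sqrt h3).symm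
    _ ≤ weakNorm 𝕜 x ^ 2 := by
        apply pow_le_pow_left₀ (Real.sqrt_nonneg _)
        exact h2

lemma weak_nonneg {m : ℕ} (x : Fin m → (Fin n → 𝕜)) : 0 ≤ weakNorm 𝕜 x :=
  Real.iSup_nonneg fun _ => Real.sqrt_nonneg _

lemma total_sum_le {m : ℕ} (x : Fin m → (Fin n → 𝕜)) :
    ∑ i, ∑ j, ‖x i j‖ ^ 2 ≤ n * weakNorm 𝕜 x ^ 2 := by
  rw [Finset.sum_comm]
  calc ∑ j, ∑ i, ‖x i j‖ ^ 2 ≤ ∑ _j : Fin n, weakNorm 𝕜 x ^ 2 :=
        Finset.sum_le_sum fun j _ => coord_sum_le x j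
    _ = n * weakNorm 𝕜 x ^ 2 := by simp

/-- A general criterion: if `‖S x‖² ≤ n * D² * ∑ |x_j|²` then `S` has the bound `n * D`. -/
lemma bound_of (S : (Fin n → 𝕜) →ₗ[𝕜] (Fin n → 𝕜)) (D : ℝ) (hD : 0 ≤ D)
    (h : ∀ x, ‖S x‖ ^ 2 ≤ n * D ^ 2 * ∑ j, ‖x j‖ ^ 2) : TwoSummingBound S (n * D) := by
  refine ⟨by positivity, fun m x => ?_⟩
  have h0 := weak_nonneg x
  apply Real.sqrt_le_iff.mpr
  refine ⟨by positivity, ?_⟩
  calc ∑ i, ‖S (x i)‖ ^ 2 ≤ ∑ i, (n * D ^ 2 * ∑ j, ‖x i j‖ ^ 2) :=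
        Finset.sum_le_sum fun i _ => h (x i)
    _ = n * D ^ 2 * ∑ i, ∑ j, ‖x i j‖ ^ 2 := by rw [Finset.mul_sum]
    _ ≤ n * D ^ 2 * (n * weakNorm 𝕜 x ^ 2) := by
        apply mul_le_mul_of_nonneg_left (total_sum_le x)
        positivity
    _ = (n * D * weakNorm 𝕜 x) ^ 2 := by ring

lemma norm_sq_le_sum (x : Fin n → 𝕜) : ‖x‖ ^ 2 ≤ ∑ j, ‖x j‖ ^ 2 := by
  have h0 : (0:ℝ) ≤ ∑ j, ‖x j‖ ^ 2 := Finset.sum_nonneg fun i _ => by positivity
  have h1 : ‖x‖ ≤ Real.sqrt (∑ j, ‖x j‖ ^ 2) := by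
    rw [pi_norm_le_iff_of_nonneg (Real.sqrt_nonneg _)]
    intro j
    apply Real.le_sqrt_of_sq_le
    exact Finset.single_le_sum (f := fun j => ‖x j‖ ^ 2) (fun i _ => by positivity)
      (Finset.mem_univ j)
  calc ‖x‖ ^ 2 ≤ Real.sqrt (∑ j, ‖x j‖ ^ 2) ^ 2 := by
        apply pow_le_pow_left₀ (norm_nonneg _) h1
    _ = _ := Real.sq_sqrt h0

lemma exists_bound (S : (Fin n → 𝕜) →ₗ[𝕜] (Fin n → 𝕜)) (hn : 0 < n) :
    ∃ C, TwoSummingBound S C := by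
  set D : ℝ := ‖LinearMap.toContinuousLinearMap S‖ with hD
  refine ⟨n * D, bound_of S D (norm_nonneg _) fun x => ?_⟩
  have h1 : ‖S x‖ ≤ D * ‖x‖ := (LinearMap.toContinuousLinearMap S).le_opNorm x
  have h2 : (1:ℝ) ≤ n := by exact_mod_cast hn
  have h3 : (0:ℝ) ≤ ∑ j, ‖x j‖ ^ 2 := Finset.sum_nonneg fun i _ => by positivity
  calc ‖S x‖ ^ 2 ≤ (D * ‖x‖) ^ 2 := pow_le_pow_left₀ (norm_nonneg _) h1 2
    _ = D ^ 2 * ‖x‖ ^ 2 := by ring
    _ ≤ D ^ 2 * ∑ j, ‖x j‖ ^ 2 := by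
        apply mul_le_mul_of_nonneg_left (norm_sq_le_sum x) (by positivity)
    _ = 1 * (D ^ 2 * ∑ j, ‖x j‖ ^ 2) := by ring
    _ ≤ n * (D ^ 2 * ∑ j, ‖x j‖ ^ 2) := by
        apply mul_le_mul_of_nonneg_right h2 (by positivity)
    _ = _ := by ring

variable (A : Matrix (Fin n) (Fin n) 𝕜)

lemma matrix_bound (hA : ∀ i j, ‖A i j‖ = 1) : TwoSummingBound (Matrix.toLin' A) (n : ℝ) := by
  have h := bound_of (Matrix.toLin' A) 1 zero_le_one (fun x => ?_)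
  · simpa using h
  have h3 : (0:ℝ) ≤ ∑ j, ‖x j‖ ^ 2 := Finset.sum_nonneg fun i _ => by positivity
  have h1 : ‖Matrix.toLin' A x‖ ≤ ∑ j, ‖x j‖ := by
    rw [pi_norm_le_iff_of_nonneg (Finset.sum_nonneg fun i _ => norm_nonneg _)]
    intro k
    rw [Matrix.toLin'_apply]
    unfold Matrix.mulVec dotProduct
    calc ‖∑ j, A k j * x j‖ ≤ ∑ j, ‖A k j * x j‖ := norm_sum_le _ _
      _ = ∑ j, ‖x j‖ := by
          apply Finset.sum_congr rfl
          intro j _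
          rw [norm_mul, hA, one_mul]
  calc ‖Matrix.toLin' A x‖ ^ 2 ≤ (∑ j, ‖x j‖) ^ 2 := pow_le_pow_left₀ (norm_nonneg _) h1 2
    _ ≤ (Finset.univ : Finset (Fin n)).card * ∑ j, ‖x j‖ ^ 2 := sq_sum_le_card_mul_sum_sq
    _ = n * 1 ^ 2 * ∑ j, ‖x j‖ ^ 2 := by simp

/-- The functional `S ↦ (S v_k)_k`, `v_k` the conjugate of the `k`-th row of `A`. -/
noncomputable def phi (k : Fin n) : ((Fin n → 𝕜) →ₗ[𝕜] (Fin n → 𝕜)) →ₗ[𝕜] 𝕜 where
  toFun S := S (fun j => star (A k j)) k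
  map_add' S T := by simp
  map_smul' c S := by simp

lemma phi_apply (k : Fin n) (S : (Fin n → 𝕜) →ₗ[𝕜] (Fin n → 𝕜)) :
    phi A k S = S (fun j => star (A k j)) k := rfl

lemma phi_le (hA : ∀ i j, ‖A i j‖ = 1) (hn : 0 < n) (k : Fin n)
    (S : (Fin n → 𝕜) →ₗ[𝕜] (Fin n → 𝕜)) : ‖phi A k S‖ ≤ pi2 S := by
  rw [phi_apply]
  refine (norm_le_pi_norm _ k).trans (norm_le_pi2 S (exists_bound S hn) _ ?_)
  rw [pi_norm_le_iff_of_nonneg zero_le_one]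
  intro j
  rw [norm_star, hA]

lemma phi_self (hA : ∀ i j, ‖A i j‖ = 1) (k : Fin n) :
    phi A k (Matrix.toLin' A) = ((n : ℝ) : 𝕜) := by
  rw [phi_apply, Matrix.toLin'_apply]
  unfold Matrix.mulVec dotProduct
  have h : ∀ j, A k j * star (A k j) = 1 := by
    intro j
    have := RCLike.mul_conj (A k j)
    rw [hA] at this
    simpa using this
  rw [Finset.sum_congr rfl (fun j _ => h j)]
  simp

lemma pi2_matrix (hA : ∀ i j, ‖A i j‖ = 1) (hn : 0 < n) :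
    pi2 (Matrix.toLin' A) = n := by
  apply le_antisymm (pi2_le _ _ (matrix_bound A hA))
  have h := phi_le A hA hn ⟨0, hn⟩ (Matrix.toLin' A)
  rw [phi_self A hA] at h
  rw [RCLike.norm_ofReal, abs_of_nonneg (by positivity)] at h
  exact h

lemma dualNorm_phi (hA : ∀ i j, ‖A i j‖ = 1) (hn : 0 < n) (k : Fin n) :
    dualNorm (phi A k) = 1 := by
  apply le_antisymm
  · apply csInf_le ⟨0, fun _ h => h.1⟩
    refine ⟨zero_le_one, fun S => ?_⟩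
    rw [one_mul]
    exact phi_le A hA hn k S
  · have hne : Set.Nonempty {C : ℝ | 0 ≤ C ∧
        ∀ S : (Fin n → 𝕜) →ₗ[𝕜] (Fin n → 𝕜), ‖phi A k S‖ ≤ C * pi2 S} :=
      ⟨1, zero_le_one, fun S => by rw [one_mul]; exact phi_le A hA hn k S⟩
    apply le_csInf hne
    rintro C ⟨_, hC⟩
    have h := hC (Matrix.toLin' A)
    rw [phi_self A hA, pi2_matrix A hA hn, RCLike.norm_ofReal,
      abs_of_nonneg (by positivity)] at h
    have h2 : (0:ℝ) < n := by exact_mod_cast hn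
    by_contra hlt
    push Not at hlt
    nlinarith

lemma phi_ne (hA : ∀ i j, ‖A i j‖ = 1) (k l : Fin n) (hkl : k ≠ l) :
    phi A k ≠ phi A l := by
  intro h
  have h1 := congrArg (fun ψ => ψ (Matrix.toLin' (Matrix.single k k (1 : 𝕜)))) h
  simp only [phi_apply, Matrix.toLin'_apply] at h1
  have h2 : (Matrix.single k k (1 : 𝕜)).mulVec (fun j => star (A k j)) k = star (A k k) := by
    simp [Matrix.mulVec, dotProduct, Matrix.single_apply]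
  have h3 : (Matrix.single k k (1 : 𝕜)).mulVec (fun j => star (A l j)) l = 0 := by
    simp [Matrix.mulVec, dotProduct, hkl]
  rw [h2, h3] at h1
  have h4 : ‖star (A k k)‖ = 0 := by rw [h1, norm_zero]
  rw [norm_star, hA] at h4
  norm_num at h4

end LInf

section Tri

variable (𝕜 : Type) [RCLike 𝕜] (n : ℕ)

/-- The sign matrix with `1` on and above the diagonal and `-1` below. -/
def tri : Matrix (Fin n) (Fin n) 𝕜 := fun i j => if i ≤ j then 1 else -1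

lemma tri_norm (i j : Fin n) : ‖tri 𝕜 n i j‖ = 1 := by
  unfold tri
  split_ifs <;> simp

lemma tri_injective : Function.Injective (Matrix.toLin' (tri 𝕜 n)) := by
  rw [← LinearMap.ker_eq_bot, LinearMap.ker_eq_bot']
  intro x hx
  have hrow : ∀ i : Fin n, ∑ j, tri 𝕜 n i j * x j = 0 := by
    intro i
    have := congrFun hx i
    rw [Matrix.toLin'_apply] at this
    simpa [Matrix.mulVec, dotProduct] using this
  -- all but the last coordinate vanish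
  have h1 : ∀ j : Fin n, (j : ℕ) + 1 < n → x j = 0 := by
    intro j hj
    have e1 := hrow j
    have e2 := hrow ⟨j + 1, hj⟩
    have e3 : ∑ l, (tri 𝕜 n j l - tri 𝕜 n ⟨j + 1, hj⟩ l) * x l = 0 := by
      simp only [sub_mul, Finset.sum_sub_distrib, e1, e2, sub_zero]
    rw [Finset.sum_eq_single j] at e3
    · have : tri 𝕜 n j j - tri 𝕜 n ⟨j + 1, hj⟩ j = 2 := by
        unfold tri
        rw [if_pos le_rfl, if_neg]
        · norm_num
        · rw [Fin.le_def]; simp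
      rw [this] at e3
      simpa using e3
    · intro l _ hl
      have : tri 𝕜 n j l - tri 𝕜 n ⟨j + 1, hj⟩ l = 0 := by
        unfold tri
        have hne : (l : ℕ) ≠ j := fun h => hl (Fin.ext h)
        by_cases hjl : j ≤ l
        · have h5 : (j : ℕ) ≤ l := hjl
          rw [if_pos hjl, if_pos, sub_self]
          rw [Fin.le_def]; simp only; omega
        · have h5 : ¬ (j : ℕ) ≤ l := hjl
          rw [if_neg hjl, if_neg, sub_self]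
          rw [Fin.le_def]; simp only; omega
      rw [this, zero_mul]
    · intro h; exact absurd (Finset.mem_univ _) h
  funext j
  by_cases hj : (j : ℕ) + 1 < n
  · exact h1 j hj
  · have e := hrow j
    rw [Finset.sum_eq_single j] at e
    · have : tri 𝕜 n j j = 1 := by unfold tri; rw [if_pos le_rfl]
      rw [this, one_mul] at e
      exact e
    · intro l _ hl
      have hne : (l : ℕ) ≠ j := fun h => hl (Fin.ext h)
      rw [h1 l (by have := l.2; have := j.2; omega), mul_zero]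
    · intro h; exact absurd (Finset.mem_univ _) h

/-- The invertible operator given by the sign matrix. -/
noncomputable def triEquiv : (Fin n → 𝕜) ≃ₗ[𝕜] (Fin n → 𝕜) :=
  LinearEquiv.ofInjectiveEndo (Matrix.toLin' (tri 𝕜 n)) (tri_injective 𝕜 n)

end Tri

/-- At least `n` distinct norm-one functionals attain `pi2 T` at `T`. -/
def ManyNorming {𝕜 : Type} [RCLike 𝕜] {X : Type} [NormedAddCommGroup X] [NormedSpace 𝕜 X]
    (n : ℕ) (T : X →ₗ[𝕜] X) : Prop :=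
  ∃ φ : Fin n → ((X →ₗ[𝕜] X) →ₗ[𝕜] 𝕜), Function.Injective φ ∧
    ∀ k, dualNorm (φ k) = 1 ∧ φ k T = ((pi2 T : ℝ) : 𝕜)

/-- Statement (a): matrices with unimodular entries, of size `n ≥ 2`, acting on `ℓ_∞^n`. -/
def UnimodularStatement (𝕜 : Type) [RCLike 𝕜] : Prop :=
  ∀ (n : ℕ) (A : Matrix (Fin n) (Fin n) 𝕜), 2 ≤ n → (∀ i j, ‖A i j‖ = 1) →
    pi2 (Matrix.toLin' A) = n ∧ ManyNorming n (Matrix.toLin' A) ∧ ¬ SmoothAt (Matrix.toLin' A)

/-- Statement (b): for every `n ≥ 2` some invertible such operator. -/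
def InvertibleStatement (𝕜 : Type) [RCLike 𝕜] : Prop :=
  ∀ n : ℕ, 2 ≤ n → ∃ T : (Fin n → 𝕜) ≃ₗ[𝕜] (Fin n → 𝕜),
    (∀ i j, ‖T (Pi.single j 1) i‖ = 1) ∧ ManyNorming n T.toLinearMap ∧ ¬ SmoothAt T.toLinearMap

/-- The statement asked about in Q1, for the scalar field `𝕜`. -/
def Q1Statement (𝕜 : Type) [RCLike 𝕜] : Prop :=
  ∀ (X : Type) [NormedAddCommGroup X] [NormedSpace 𝕜 X] [FiniteDimensional 𝕜 X]
    (T : X ≃ₗ[𝕜] X), SmoothAt T.toLinearMap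

theorem unimodular (𝕜 : Type) [RCLike 𝕜] : UnimodularStatement 𝕜 := by
  intro n A hn hA
  have hn0 : 0 < n := by omega
  have hp := pi2_matrix A hA hn0
  have hφ : ∀ k, dualNorm (phi A k) = 1 ∧
      phi A k (Matrix.toLin' A) = ((pi2 (Matrix.toLin' A) : ℝ) : 𝕜) := fun k =>
    ⟨dualNorm_phi A hA hn0 k, by rw [phi_self A hA, hp]⟩
  have hinj : Function.Injective (phi A) := by
    intro k l h
    by_contra hkl
    exact phi_ne A hA k l hkl h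
  refine ⟨hp, ⟨phi A, hinj, hφ⟩, ?_⟩
  rintro ⟨ψ, _, huniq⟩
  have h0 := huniq _ (hφ ⟨0, hn0⟩)
  have h1 := huniq _ (hφ ⟨1, by omega⟩)
  have h2 := hinj (h0.trans h1.symm)
  simp [Fin.ext_iff] at h2

theorem invertible (𝕜 : Type) [RCLike 𝕜] : InvertibleStatement 𝕜 := by
  intro n hn
  have h := unimodular 𝕜 n (tri 𝕜 n) hn (tri_norm 𝕜 n)
  have he : (triEquiv 𝕜 n).toLinearMap = Matrix.toLin' (tri 𝕜 n) := by
    apply LinearMap.ext
    intro x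
    rfl
  refine ⟨triEquiv 𝕜 n, ?_, ?_, ?_⟩
  · intro i j
    have h1 : triEquiv 𝕜 n (Pi.single j 1) = Matrix.toLin' (tri 𝕜 n) (Pi.single j 1) := rfl
    rw [h1, Matrix.toLin'_apply, Matrix.mulVec_single_one]
    exact tri_norm 𝕜 n i j
  · rw [he]; exact h.2.1
  · rw [he]; exact h.2.2

/-- **Q1 is false**, over `ℝ` and over `ℂ`, in every dimension `n ≥ 2`. Two distinct norm-one
functionals on `Π₂(ℓ_∞^n, ℓ_∞^n)` attain the value `pi2 T` at some invertible `T`. -/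
theorem result (𝕜 : Type) [RCLike 𝕜] :
    UnimodularStatement 𝕜 ∧ InvertibleStatement 𝕜 ∧ ¬ Q1Statement 𝕜 := by
  refine ⟨unimodular 𝕜, invertible 𝕜, ?_⟩
  intro hall
  obtain ⟨T, _, _, hT⟩ := invertible 𝕜 2 le_rfl
  exact hT (hall (Fin 2 → 𝕜) T)

end Pool.Agent.Results.MP_0c20fd_an.NotSmoothAtInvertible
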